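import Mathlib

/-!
# Random choices: the counting lemma and the greedy lemma
-/

set_option autoImplicit false

namespace Pool.Agent.K3h23.NZ

open Finset
open scoped Classical

/-- Choice functions which take a captured value at all the places of `B'`, where the captured
values depend on the choices outside `B'` only. -/
theorem count_fix {ι : Type} [Fintype ι] [DecidableEq ι] (W : ι → Finset ℤ) (B' : Finset ι)
    (C : (ι → ℤ) → ℤ → Prop) (hC : ∀ y y' : ι → ℤ, (∀ a, a ∉ B' → y a = y' a) → C y = C y')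
    (N H : ℕ) (hW : ∀ i, H ≤ (W i).card) (T : Finset (ι → ℤ)) (hT : T ⊆ Fintype.piFinset W)
    (hT2 : ∀ y ∈ T, ∀ b ∈ B', C y (y b) ∧ ((W b).filter (C y)).card ≤ N) :
    T.card * H ^ B'.card ≤ (Fintype.piFinset W).card * N ^ B'.card := by
  set r : (ι → ℤ) → (ι → ℤ) := fun y i => if i ∈ B' then 0 else y i with hr
  have h1 : T.card ≤ N ^ B'.card * (T.image r).card := by
    refine card_le_mul_card_image T _ ?_
    intro z hz
    obtain ⟨y₀, hy₀, rfl⟩ := mem_image.1 hz
    have hsub : T.filter (fun y => r y = r y₀) ⊆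
        Fintype.piFinset (fun i => if i ∈ B' then (W i).filter (C y₀) else {y₀ i}) := by
      intro y hy
      rw [mem_filter] at hy
      have hag : ∀ a, a ∉ B' → y a = y₀ a := by
        intro a ha
        have := congrFun hy.2 a
        simpa [hr, ha] using this
      rw [Fintype.mem_piFinset]
      intro i
      by_cases hi : i ∈ B'
      · rw [if_pos hi, mem_filter, ← hC y y₀ hag]
        exact ⟨Fintype.mem_piFinset.1 (hT hy.1) i, (hT2 y hy.1 i hi).1⟩
      · rw [if_neg hi, mem_singleton]
        exact hag i hi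
    refine (card_le_card hsub).trans ?_
    rw [Fintype.card_piFinset]
    have : ∀ i, (if i ∈ B' then (W i).filter (C y₀) else {y₀ i}).card ≤
        if i ∈ B' then N else 1 := by
      intro i
      by_cases hi : i ∈ B'
      · rw [if_pos hi, if_pos hi]
        exact (hT2 y₀ hy₀ i hi).2
      · rw [if_neg hi, if_neg hi, card_singleton]
    refine (prod_le_prod' fun i _ => this i).trans ?_
    rw [prod_ite_mem, univ_inter, prod_const]
  have h2 : (T.image r).card ≤ ∏ i, if i ∈ B' then 1 else (W i).card := by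
    have hsub : T.image r ⊆ Fintype.piFinset (fun i => if i ∈ B' then {0} else W i) := by
      intro z hz
      obtain ⟨y, hy, rfl⟩ := mem_image.1 hz
      rw [Fintype.mem_piFinset]
      intro i
      by_cases hi : i ∈ B'
      · simp [hr, hi]
      · simp only [hr, if_neg hi]
        exact Fintype.mem_piFinset.1 (hT hy) i
    refine (card_le_card hsub).trans ?_
    rw [Fintype.card_piFinset]
    refine prod_le_prod' fun i _ => ?_
    by_cases hi : i ∈ B'
    · simp [hi]
    · simp [hi]
  have h3 : (∏ i, if i ∈ B' then 1 else (W i).card) * H ^ B'.card ≤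
      (Fintype.piFinset W).card := by
    have h4 : H ^ B'.card = ∏ i, if i ∈ B' then H else 1 := by
      rw [prod_ite_mem, univ_inter, prod_const]
    rw [h4, ← prod_mul_distrib, Fintype.card_piFinset]
    refine prod_le_prod' fun i _ => ?_
    by_cases hi : i ∈ B'
    · simp [hi, hW i]
    · simp [hi]
  calc T.card * H ^ B'.card ≤ (N ^ B'.card * (T.image r).card) * H ^ B'.card :=
        Nat.mul_le_mul_right _ h1
    _ ≤ (N ^ B'.card * ∏ i, if i ∈ B' then 1 else (W i).card) * H ^ B'.card :=
        Nat.mul_le_mul_right _ (Nat.mul_le_mul_left _ h2)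
    _ = N ^ B'.card * ((∏ i, if i ∈ B' then 1 else (W i).card) * H ^ B'.card) := by ring
    _ ≤ N ^ B'.card * (Fintype.piFinset W).card := Nat.mul_le_mul_left _ h3
    _ = _ := by ring

/-- the products of the elements of `X` and the values of `F` on `B` -/
noncomputable def PX {ι : Type} (X : Finset ℂ) (B : Finset ι) (F : ι → ℂ) : Finset ℂ :=
  (X ×ˢ B).image fun s => s.1 * F s.2

lemma mem_PX {ι : Type} {X : Finset ℂ} {B : Finset ι} {F : ι → ℂ} {z : ℂ} :
    z ∈ PX X B F ↔ ∃ x ∈ X, ∃ b ∈ B, x * F b = z := by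
  unfold PX
  simp only [mem_image, mem_product, Prod.exists]
  constructor
  · rintro ⟨x, b, ⟨hx, hb⟩, rfl⟩
    exact ⟨x, hx, b, hb, rfl⟩
  · rintro ⟨x, hx, b, hb, rfl⟩
    exact ⟨x, b, ⟨hx, hb⟩, rfl⟩

lemma PX_mono {ι : Type} {X : Finset ℂ} {B B' : Finset ι} {F : ι → ℂ} (h : B ⊆ B') :
    PX X B F ⊆ PX X B' F := by
  intro z hz
  obtain ⟨x, hx, b, hb, rfl⟩ := mem_PX.1 hz
  exact mem_PX.2 ⟨x, hx, b, h hb, rfl⟩

/-- the greedy choice: few elements of `B` capture almost all the products with each element -/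
theorem greedy {ι : Type} (X : Finset ℂ) (B : Finset ι) (F : ι → ℂ) (hF : ∀ b ∈ B, F b ≠ 0)
    (η : ℝ) (hη : 0 ≤ η) : ∃ J ⊆ B, (J.card : ℝ) * (η * X.card) ≤ (PX X J F).card ∧
      ∀ b ∈ B, ((X.filter fun x => x * F b ∉ PX X J F).card : ℝ) ≤ η * X.card := by
  set P := B.powerset.filter fun J : Finset ι =>
    (J.card : ℝ) * (η * X.card) ≤ (PX X J F).card with hP
  have hne : P.Nonempty := ⟨∅, by
    rw [hP, mem_filter]
    exact ⟨empty_mem_powerset B, by simp⟩⟩
  obtain ⟨J, hJ, hmax⟩ := P.exists_max_image card hne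
  rw [hP, mem_filter, mem_powerset] at hJ
  refine ⟨J, hJ.1, hJ.2, fun b hb => ?_⟩
  by_contra hcon
  push Not at hcon
  have hbJ : b ∉ J := by
    intro hbJ
    have h0 : (X.filter fun x => x * F b ∉ PX X J F) = ∅ :=
      filter_false_of_mem fun x hx hx2 => hx2 (mem_PX.2 ⟨x, hx, b, hbJ, rfl⟩)
    rw [h0, card_empty, Nat.cast_zero] at hcon
    have : 0 ≤ η * (X.card : ℝ) := by positivity
    linarith
  have h1 : PX X J F ∪ (X.filter fun x => x * F b ∉ PX X J F).image (fun x => x * F b) ⊆
      PX X (insert b J) F := by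
    refine union_subset (PX_mono (subset_insert _ _)) fun z hz => ?_
    obtain ⟨x, hx, rfl⟩ := mem_image.1 hz
    exact mem_PX.2 ⟨x, (mem_filter.1 hx).1, b, mem_insert_self _ _, rfl⟩
  have h2 : Disjoint (PX X J F)
      ((X.filter fun x => x * F b ∉ PX X J F).image (fun x => x * F b)) := by
    rw [disjoint_right]
    intro z hz
    obtain ⟨x, hx, rfl⟩ := mem_image.1 hz
    exact (mem_filter.1 hx).2
  have h3 := card_le_card h1
  rw [card_union_of_disjoint h2, card_image_of_injective _ (mul_left_injective₀ (hF b hb))] at h3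
  have h3' : ((PX X J F).card : ℝ) + (X.filter fun x => x * F b ∉ PX X J F).card ≤
      (PX X (insert b J) F).card := by exact_mod_cast h3
  have h4 : insert b J ∈ P := by
    rw [hP, mem_filter, mem_powerset]
    refine ⟨insert_subset hb hJ.1, ?_⟩
    rw [card_insert_of_notMem hbJ]
    push_cast
    linarith [hJ.2]
  have h5 := hmax _ h4
  rw [card_insert_of_notMem hbJ] at h5
  omega

end Pool.Agent.K3h23.NZ
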