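import Mathlib
import Pool.Agent.K3h23.NZ.Count

/-!
# Random choices: sets of captured values are small, and the step
-/

set_option autoImplicit false

namespace Pool.Agent.K3h23.NZ

open Finset
open scoped Classical

/-- every set which is a union of parts with at least `N` elements of the sets `W i` has
many products with every set -/
def Rich (N : ℕ) (c ε : ℝ) {ι : Type} (W : ι → Finset ℤ) (F : ℤ → ℂ) : Prop :=
  ∀ S : Finset ℤ, S.Nonempty → (∀ v ∈ S, F v ≠ 0 ∧ ∃ i, v ∈ W i ∧ N ≤ (S ∩ W i).card) →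
    ∀ X : Finset ℂ, X.Nonempty → (0 : ℂ) ∉ X →
      c * ((X.card : ℝ) * S.card) ^ (1 - ε) ≤ (PX X S F).card

/-- the captured values -/
def Cap (X Z : Finset ℂ) (F : ℤ → ℂ) (η : ℝ) (v : ℤ) : Prop :=
  F v ≠ 0 ∧ ((X.filter fun x => x * F v ∉ Z).card : ℝ) ≤ η * X.card

lemma PX_card_le (X Z : Finset ℂ) (S : Finset ℤ) (F : ℤ → ℂ) (η : ℝ)
    (hS : ∀ v ∈ S, ((X.filter fun x => x * F v ∉ Z).card : ℝ) ≤ η * X.card) :
    ((PX X S F).card : ℝ) ≤ Z.card + S.card * (η * X.card) := by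
  have h1 : PX X S F ⊆ Z ∪ S.biUnion fun v =>
      (X.filter fun x => x * F v ∉ Z).image fun x => x * F v := by
    intro z hz
    obtain ⟨x, hx, v, hv, rfl⟩ := mem_PX.1 hz
    by_cases h : x * F v ∈ Z
    · exact mem_union_left _ h
    · exact mem_union_right _ (mem_biUnion.2 ⟨v, hv, mem_image.2 ⟨x, mem_filter.2 ⟨hx, h⟩, rfl⟩⟩)
  have h2 : (PX X S F).card ≤ Z.card + ∑ v ∈ S, (X.filter fun x => x * F v ∉ Z).card :=
    (card_le_card h1).trans ((card_union_le _ _).trans (Nat.add_le_add_left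
      (card_biUnion_le.trans (sum_le_sum fun v _ => card_image_le)) _))
  have h3 : ((PX X S F).card : ℝ) ≤ Z.card +
      ∑ v ∈ S, ((X.filter fun x => x * F v ∉ Z).card : ℝ) := by exact_mod_cast h2
  refine h3.trans (add_le_add_right ?_ _)
  refine (sum_le_sum hS).trans ?_
  rw [sum_const, nsmul_eq_mul]

/-- the numerical threshold -/
lemma thr (ε C c : ℝ) (hε : 0 < ε) (hc : 0 < c) :
    ∃ n₀ : ℕ, ∀ n : ℕ, n₀ ≤ n → C * (n : ℝ) ^ (-(ε / 4)) < c := by
  have h1 : Filter.Tendsto (fun n : ℕ => C * (n : ℝ) ^ (-(ε / 4))) Filter.atTop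
      (nhds (C * 0)) :=
    (((tendsto_rpow_neg_atTop (show 0 < ε / 4 by positivity)).comp
      tendsto_natCast_atTop_atTop)).const_mul C
  rw [mul_zero] at h1
  obtain ⟨n₀, h⟩ := Filter.eventually_atTop.1 (h1.eventually (gt_mem_nhds hc))
  exact ⟨n₀, fun n hn => h n hn⟩

/-- few places have many captured values -/
theorem nocap (ε ρ c : ℝ) (hε : 0 < ε) (hε1 : ε ≤ 1) (hρ : 0 < ρ) (hc : 0 < c) (k N R : ℕ)
    (hN : 1 ≤ N) : ∃ n₀ : ℕ, ∀ {ι : Type} [Fintype ι] (W : ι → Finset ℤ) (F : ℤ → ℂ) (n : ℕ),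
      n = Fintype.card ι → n₀ ≤ n →
      (∀ v, ((univ : Finset ι).filter fun i => v ∈ W i).card ≤ R) →
      Rich N c (ε / (4 * (k + 1))) W F →
      ∀ X Z : Finset ℂ, X.Nonempty → (0 : ℂ) ∉ X → X.card ≤ n ^ k →
      (Z.card : ℝ) < X.card * (n : ℝ) ^ (1 - ε) →
      (((univ : Finset ι).filter fun i =>
        N ≤ ((W i).filter (Cap X Z F ((n : ℝ) ^ (-(ε / 2))))).card).card : ℝ) < ρ * n := by
  set ε' := ε / (4 * (k + 1)) with hε'
  have hε'0 : 0 < ε' := by positivity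
  have hε'1 : ε' ≤ 1 := by
    rw [hε', div_le_one (by positivity)]
    have : (0 : ℝ) ≤ k := Nat.cast_nonneg k
    linarith
  obtain ⟨n₀, hn₀⟩ := thr ε ((R / ρ + 1) * (N : ℝ) ^ ε') c hε hc
  refine ⟨max n₀ 1, ?_⟩
  intro ι _ W F n hn hnn hR hrich X Z hX h0 hXk hZ
  have hn1 : 1 ≤ n := (le_max_right _ _).trans hnn
  have hthr := hn₀ n ((le_max_left _ _).trans hnn)
  have hnr : (1 : ℝ) ≤ n := by exact_mod_cast hn1
  have hn0 : (0 : ℝ) < n := by linarith
  set G := (univ : Finset ι).filter fun i =>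
    N ≤ ((W i).filter (Cap X Z F ((n : ℝ) ^ (-(ε / 2))))).card with hG
  by_contra hcon
  push Not at hcon
  have hG0 : 0 < (G.card : ℝ) := lt_of_lt_of_le (by positivity) hcon
  have hGn : (G.card : ℝ) ≤ n := by
    rw [hn]
    exact_mod_cast card_le_univ G
  have hch : ∀ i ∈ G, ∃ s ⊆ (W i).filter (Cap X Z F ((n : ℝ) ^ (-(ε / 2)))), s.card = N :=
    fun i hi => exists_subset_card_eq (mem_filter.1 hi).2
  choose! s hs1 hs2 using hch
  set S := G.biUnion s with hS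
  have hSW : ∀ i ∈ G, s i ⊆ S ∩ W i := fun i hi =>
    subset_inter (subset_biUnion_of_mem s hi) ((hs1 i hi).trans (filter_subset _ _))
  have hScap : ∀ v ∈ S, Cap X Z F ((n : ℝ) ^ (-(ε / 2))) v := by
    intro v hv
    obtain ⟨i, hi, hvi⟩ := mem_biUnion.1 hv
    exact (mem_filter.1 (hs1 i hi hvi)).2
  have hSne : S.Nonempty := by
    obtain ⟨i, hi⟩ := card_pos.1 (show 0 < G.card by exact_mod_cast hG0)
    obtain ⟨v, hv⟩ := card_pos.1 (show 0 < (s i).card by rw [hs2 i hi]; exact hN)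
    exact ⟨v, mem_biUnion.2 ⟨i, hi, hv⟩⟩
  have h1 := hrich S hSne (fun v hv => ⟨(hScap v hv).1, by
    obtain ⟨i, hi, hvi⟩ := mem_biUnion.1 hv
    refine ⟨i, (mem_filter.1 (hs1 i hi hvi)).1, ?_⟩
    rw [← hs2 i hi]
    exact card_le_card (hSW i hi)⟩) X hX h0
  have h2 := PX_card_le X Z S F ((n : ℝ) ^ (-(ε / 2))) (fun v hv => (hScap v hv).2)
  -- the size of `S`
  have h3 : (S.card : ℝ) ≤ N * n := by
    have : S.card ≤ G.card * N := by
      refine card_biUnion_le.trans ?_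
      rw [← smul_eq_mul, ← sum_const]
      exact sum_le_sum fun i hi => (hs2 i hi).le
    calc (S.card : ℝ) ≤ G.card * N := by exact_mod_cast this
      _ ≤ n * N := by gcongr
      _ = _ := by ring
  have h4 : (G.card : ℝ) * N ≤ R * S.card := by
    have : G.card * N ≤ R * S.card := by
      calc G.card * N = ∑ i ∈ G, (s i).card := by
            rw [sum_congr rfl hs2, sum_const, smul_eq_mul]
        _ = ∑ i ∈ G, ∑ v ∈ S, if v ∈ s i then 1 else 0 := by
            refine sum_congr rfl fun i hi => ?_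
            rw [← card_filter]
            congr 1
            ext v
            rw [mem_filter]
            exact ⟨fun h => ⟨mem_biUnion.2 ⟨i, hi, h⟩, h⟩, fun h => h.2⟩
        _ = ∑ v ∈ S, ∑ i ∈ G, if v ∈ s i then 1 else 0 := sum_comm
        _ ≤ ∑ v ∈ S, R := by
            refine sum_le_sum fun v _ => ?_
            rw [← card_filter]
            refine le_trans (card_le_card ?_) (hR v)
            intro i hi
            rw [mem_filter] at hi ⊢
            exact ⟨mem_univ _, (mem_filter.1 (hs1 i hi.1 hi.2)).1⟩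
        _ = R * S.card := by rw [sum_const, smul_eq_mul, mul_comm]
    exact_mod_cast this
  have hx : (1 : ℝ) ≤ X.card := by exact_mod_cast card_pos.2 hX
  have hs : (1 : ℝ) ≤ S.card := by exact_mod_cast card_pos.2 hSne
  set x : ℝ := (X.card : ℝ) with hxd
  set t : ℝ := (S.card : ℝ) with htd
  have hNr : (1 : ℝ) ≤ N := by exact_mod_cast hN
  -- `n ≤ (R / ρ) t`
  have h5 : (n : ℝ) ≤ R / ρ * t := by
    have h51 : ρ * n ≤ R * t := by
      calc ρ * n ≤ G.card := hcon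
        _ ≤ G.card * N := by nlinarith
        _ ≤ R * t := h4
    rw [div_mul_eq_mul_div, le_div_iff₀ hρ]
    linarith
  have h6 : (x * t) ^ ε' ≤ (N : ℝ) ^ ε' * (n : ℝ) ^ (ε / 4) := by
    have hxk : x ≤ (n : ℝ) ^ k := by rw [hxd]; exact_mod_cast hXk
    have h61 : x * t ≤ N * (n : ℝ) ^ ((k : ℝ) + 1) := by
      rw [Real.rpow_add hn0, Real.rpow_natCast, Real.rpow_one]
      calc x * t ≤ (n : ℝ) ^ k * (N * n) := by gcongr
        _ = _ := by ring
    refine (Real.rpow_le_rpow (by positivity) h61 hε'0.le).trans (le_of_eq ?_)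
    rw [Real.mul_rpow (by positivity) (by positivity), ← Real.rpow_mul hn0.le]
    congr 2
    rw [hε']
    field_simp
  have h7 : c * (x * t) ≤ (Z.card + t * ((n : ℝ) ^ (-(ε / 2)) * x)) *
      ((N : ℝ) ^ ε' * (n : ℝ) ^ (ε / 4)) := by
    have hxt : 0 < x * t := by positivity
    have e : c * (x * t) = (c * (x * t) ^ (1 - ε')) * (x * t) ^ ε' := by
      rw [mul_assoc, ← Real.rpow_add hxt]
      congr 1
      rw [sub_add_cancel, Real.rpow_one]
    rw [e]
    exact mul_le_mul (h1.trans h2) h6 (by positivity) (by positivity)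
  have h8 : (Z.card : ℝ) + t * ((n : ℝ) ^ (-(ε / 2)) * x) ≤
      (x * t) * ((R / ρ + 1) * (n : ℝ) ^ (-(ε / 2))) := by
    have e1 : (n : ℝ) ^ (1 - ε) = n * (n : ℝ) ^ (-ε) := by
      rw [sub_eq_add_neg, Real.rpow_add hn0, Real.rpow_one]
    have e2 : (n : ℝ) ^ (-ε) ≤ (n : ℝ) ^ (-(ε / 2)) :=
      Real.rpow_le_rpow_of_exponent_le hnr (by linarith)
    have e3 : (n : ℝ) ^ (1 - ε) ≤ R / ρ * t * (n : ℝ) ^ (-(ε / 2)) := by
      rw [e1]
      exact mul_le_mul h5 e2 (by positivity) (by positivity)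
    have e4 : x * (n : ℝ) ^ (1 - ε) ≤ x * (R / ρ * t * (n : ℝ) ^ (-(ε / 2))) :=
      mul_le_mul_of_nonneg_left e3 (by linarith)
    calc (Z.card : ℝ) + t * ((n : ℝ) ^ (-(ε / 2)) * x)
        ≤ x * (R / ρ * t * (n : ℝ) ^ (-(ε / 2))) + t * ((n : ℝ) ^ (-(ε / 2)) * x) := by linarith
      _ = _ := by ring
  have h9 : c * (x * t) ≤ (x * t) * ((R / ρ + 1) * (N : ℝ) ^ ε' * (n : ℝ) ^ (-(ε / 4))) := by
    refine h7.trans ((mul_le_mul_of_nonneg_right h8 (by positivity)).trans (le_of_eq ?_))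
    have e5 : (n : ℝ) ^ (-(ε / 2)) * (n : ℝ) ^ (ε / 4) = (n : ℝ) ^ (-(ε / 4)) := by
      rw [← Real.rpow_add hn0]
      congr 1
      ring
    rw [← e5]
    ring
  have hxt : 0 < x * t := by positivity
  nlinarith

end Pool.Agent.K3h23.NZ
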