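import Mathlib
import Pool.Agent.K3h23.NZ.Step

/-!
# Random choices: the union bound
-/

set_option autoImplicit false

namespace Pool.Agent.K3h23.NZ

open Finset
open scoped Classical

/-- the necessary number of alternatives -/
noncomputable def alt (N : ℕ) (ρ : ℝ) (q : ℕ) : ℕ := N * ⌈((8 * q : ℕ) : ℝ) ^ (2 / ρ)⌉₊

lemma alt_pow (ρ : ℝ) (hρ : 0 < ρ) (q n b : ℕ) (hq : 1 ≤ q) (hb : ρ / 2 * n ≤ b) :
    (8 * q) ^ n ≤ ⌈((8 * q : ℕ) : ℝ) ^ (2 / ρ)⌉₊ ^ b := by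
  have h1 : (1 : ℝ) ≤ ((8 * q : ℕ) : ℝ) := by
    have : 1 ≤ 8 * q := by omega
    exact_mod_cast this
  have h2 : (((8 * q : ℕ) : ℝ)) ^ n ≤ ((⌈((8 * q : ℕ) : ℝ) ^ (2 / ρ)⌉₊ : ℕ) : ℝ) ^ b := by
    calc (((8 * q : ℕ) : ℝ)) ^ n = ((8 * q : ℕ) : ℝ) ^ (n : ℝ) := (Real.rpow_natCast _ _).symm
      _ ≤ ((8 * q : ℕ) : ℝ) ^ (2 / ρ * b) := by
          refine Real.rpow_le_rpow_of_exponent_le h1 ?_
          rw [div_mul_eq_mul_div, le_div_iff₀ hρ]
          linarith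
      _ = (((8 * q : ℕ) : ℝ) ^ (2 / ρ)) ^ b := by
          rw [Real.rpow_mul (by linarith), Real.rpow_natCast]
      _ ≤ _ := pow_le_pow_left₀ (by positivity) (Nat.le_ceil _) b
  exact_mod_cast h2

/-- one triple of sets -/
lemma one_triple {ι : Type} [Fintype ι] [DecidableEq ι] (W : ι → Finset ℤ) (F : ℤ → ℂ) (ρ η : ℝ) (hρ : 0 < ρ)
    (N q n : ℕ) (hN : 1 ≤ N) (hq : 1 ≤ q) (hW : ∀ i, alt N ρ q ≤ (W i).card)
    (Ψ : Finset ι → (ι → ℤ) → Finset ℂ)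
    (hΨ : ∀ B y y', (∀ b ∈ B, y b = y' b) → Ψ B y = Ψ B y') (B₁ J B' : Finset ι)
    (h1 : Disjoint B' B₁) (h2 : Disjoint B' J) (h3 : ρ / 2 * n ≤ B'.card) :
    ((Fintype.piFinset W).filter fun y => ∀ b ∈ B',
      Cap (Ψ B₁ y) (PX (Ψ B₁ y) J fun b => F (y b)) F η (y b) ∧
      ((W b).filter (Cap (Ψ B₁ y) (PX (Ψ B₁ y) J fun b => F (y b)) F η)).card ≤ N).card *
      (8 * q) ^ n ≤ (Fintype.piFinset W).card := by
  set T := (Fintype.piFinset W).filter fun y => ∀ b ∈ B',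
      Cap (Ψ B₁ y) (PX (Ψ B₁ y) J fun b => F (y b)) F η (y b) ∧
      ((W b).filter (Cap (Ψ B₁ y) (PX (Ψ B₁ y) J fun b => F (y b)) F η)).card ≤ N with hT
  have hc := count_fix W B' (fun y => Cap (Ψ B₁ y) (PX (Ψ B₁ y) J fun b => F (y b)) F η)
    (by
      intro y y' h
      have e1 : Ψ B₁ y = Ψ B₁ y' := hΨ B₁ y y' fun b hb => h b (disjoint_right.1 h1 hb)
      have e2 : PX (Ψ B₁ y) J (fun b => F (y b)) = PX (Ψ B₁ y') J (fun b => F (y' b)) := by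
        rw [e1]
        unfold PX
        refine image_congr fun s hs => ?_
        rw [mem_coe, mem_product] at hs
        show s.1 * F (y s.2) = s.1 * F (y' s.2)
        rw [h s.2 (disjoint_right.1 h2 hs.2)]
      show Cap (Ψ B₁ y) (PX (Ψ B₁ y) J fun b => F (y b)) F η =
        Cap (Ψ B₁ y') (PX (Ψ B₁ y') J fun b => F (y' b)) F η
      rw [e2, e1])
    N (alt N ρ q) hW T (filter_subset _ _) (fun y hy b hb => (mem_filter.1 hy).2 b hb)
  have h4 := alt_pow ρ hρ q n B'.card hq h3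
  have hNp : 0 < N ^ B'.card := Nat.pow_pos hN
  refine le_of_mul_le_mul_left ?_ hNp
  calc N ^ B'.card * (T.card * (8 * q) ^ n)
      ≤ N ^ B'.card * (T.card * ⌈((8 * q : ℕ) : ℝ) ^ (2 / ρ)⌉₊ ^ B'.card) := by gcongr
    _ = T.card * alt N ρ q ^ B'.card := by
        unfold alt
        rw [mul_pow]
        ring
    _ ≤ (Fintype.piFinset W).card * N ^ B'.card := hc
    _ = _ := by ring

/-- **The step.** -/
theorem step (ε ρ c : ℝ) (hε : 0 < ε) (hε1 : ε ≤ 1) (hρ : 0 < ρ) (hc : 0 < c) (k N R q : ℕ)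
    (hN : 1 ≤ N) (hq : 1 ≤ q) : ∃ n₀ : ℕ, ∀ {ι : Type} [Fintype ι] [DecidableEq ι]
      (W : ι → Finset ℤ) (F : ℤ → ℂ) (n : ℕ), n = Fintype.card ι → n₀ ≤ n →
      (∀ i, alt N ρ q ≤ (W i).card) →
      (∀ v, ((univ : Finset ι).filter fun i => v ∈ W i).card ≤ R) →
      Rich N c (ε / (4 * (k + 1))) W F →
      ∀ Ψ : Finset ι → (ι → ℤ) → Finset ℂ,
      (∀ B y y', (∀ b ∈ B, y b = y' b) → Ψ B y = Ψ B y') →
      ((Fintype.piFinset W).filter fun y => ∃ B₁ B₂ : Finset ι, Disjoint B₁ B₂ ∧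
        ρ * n ≤ B₂.card ∧ (∀ b ∈ B₂, F (y b) ≠ 0) ∧ (Ψ B₁ y).Nonempty ∧ (0 : ℂ) ∉ Ψ B₁ y ∧
        (Ψ B₁ y).card ≤ n ^ k ∧ ((PX (Ψ B₁ y) B₂ fun b => F (y b)).card : ℝ) <
          (Ψ B₁ y).card * (n : ℝ) ^ (1 - ε)).card * q ^ n ≤ (Fintype.piFinset W).card := by
  obtain ⟨n₁, hn₁⟩ := nocap ε (ρ / 4) c hε hε1 (by positivity) hc k N R hN
  obtain ⟨n₂, hn₂⟩ := thr ε 1 (ρ / 4) hε (by positivity)
  refine ⟨max (max n₁ n₂) 1, ?_⟩
  intro ι _ _ W F n hn hnn hW hR hrich Ψ hΨ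
  have hn1 : 1 ≤ n := (le_max_right _ _).trans hnn
  have hcap := hn₁ W F n hn ((le_max_left _ _).trans ((le_max_left _ _).trans hnn)) hR hrich
  have hthr := hn₂ n ((le_max_right _ _).trans ((le_max_left _ _).trans hnn))
  rw [one_mul] at hthr
  have hnr : (1 : ℝ) ≤ n := by exact_mod_cast hn1
  have hn0 : (0 : ℝ) < n := by linarith
  set η : ℝ := (n : ℝ) ^ (-(ε / 2)) with hη
  have hη0 : 0 < η := by positivity
  have hη1 : η ≤ ρ / 4 :=
    (Real.rpow_le_rpow_of_exponent_le hnr (by linarith)).trans hthr.le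
  set Tr := ((univ : Finset (Finset ι)) ×ˢ ((univ : Finset (Finset ι)) ×ˢ
    (univ : Finset (Finset ι)))).filter fun s => Disjoint s.2.2 s.1 ∧ Disjoint s.2.2 s.2.1 ∧
      ρ / 2 * n ≤ s.2.2.card with hTr
  set Bd : Finset ι × (Finset ι × Finset ι) → Finset (ι → ℤ) := fun s =>
    (Fintype.piFinset W).filter fun y => ∀ b ∈ s.2.2,
      Cap (Ψ s.1 y) (PX (Ψ s.1 y) s.2.1 fun b => F (y b)) F η (y b) ∧
      ((W b).filter (Cap (Ψ s.1 y) (PX (Ψ s.1 y) s.2.1 fun b => F (y b)) F η)).card ≤ N with hBd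
  set bad := (Fintype.piFinset W).filter fun y => ∃ B₁ B₂ : Finset ι, Disjoint B₁ B₂ ∧
        ρ * n ≤ B₂.card ∧ (∀ b ∈ B₂, F (y b) ≠ 0) ∧ (Ψ B₁ y).Nonempty ∧ (0 : ℂ) ∉ Ψ B₁ y ∧
        (Ψ B₁ y).card ≤ n ^ k ∧ ((PX (Ψ B₁ y) B₂ fun b => F (y b)).card : ℝ) <
          (Ψ B₁ y).card * (n : ℝ) ^ (1 - ε) with hbad
  have hsub : bad ⊆ Tr.biUnion Bd := by
    intro y hy
    rw [hbad, mem_filter] at hy
    obtain ⟨hyW, B₁, B₂, hd, hB₂, hF, hne, h0, hk, hlt⟩ := hy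
    set X := Ψ B₁ y with hX
    have hXc : (0 : ℝ) < X.card := by exact_mod_cast card_pos.2 hne
    obtain ⟨J, hJB, hJ1, hJ2⟩ := greedy X B₂ (fun b => F (y b)) hF η hη0.le
    set Z := PX X J fun b => F (y b) with hZ
    have hZlt : (Z.card : ℝ) < X.card * (n : ℝ) ^ (1 - ε) :=
      lt_of_le_of_lt (by exact_mod_cast card_le_card (PX_mono hJB)) hlt
    have hJc : (J.card : ℝ) ≤ ρ / 4 * n := by
      have h1 : (J.card : ℝ) * (η * X.card) < X.card * (n : ℝ) ^ (1 - ε) := hJ1.trans_lt hZlt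
      have h2 : (J.card : ℝ) * η < (n : ℝ) ^ (1 - ε) := by
        have h3 : ((J.card : ℝ) * η) * X.card < (n : ℝ) ^ (1 - ε) * X.card := by linarith
        exact lt_of_mul_lt_mul_right h3 hXc.le
      have h4 : (n : ℝ) ^ (1 - ε) = (η * n) * η := by
        rw [hη, mul_right_comm, ← Real.rpow_add hn0, ← Real.rpow_add_one hn0.ne']
        congr 1
        ring
      rw [h4] at h2
      have h5 := lt_of_mul_lt_mul_right h2 hη0.le
      exact h5.le.trans (mul_le_mul_of_nonneg_right hη1 hn0.le)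
    set G := (univ : Finset ι).filter fun i =>
        N ≤ ((W i).filter (Cap X Z F η)).card with hG
    have hGc : (G.card : ℝ) < ρ / 4 * n := hcap X Z hne h0 hk hZlt
    rw [mem_biUnion]
    refine ⟨(B₁, (J, B₂ \ (J ∪ G))), ?_, ?_⟩
    · rw [hTr, mem_filter]
      refine ⟨by simp, ?_, ?_, ?_⟩
      · exact (disjoint_of_subset_left sdiff_subset hd.symm)
      · exact disjoint_of_subset_right subset_union_left sdiff_disjoint
      · have h1 : B₂.card ≤ (B₂ \ (J ∪ G)).card + (J ∪ G).card := by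
          have := le_card_sdiff (J ∪ G) B₂
          omega
        have h2 := card_union_le J G
        have h3 : (B₂.card : ℝ) ≤ (B₂ \ (J ∪ G)).card + (J.card + G.card) := by
          exact_mod_cast h1.trans (Nat.add_le_add_left h2 _)
        linarith
    · rw [hBd, mem_filter]
      refine ⟨hyW, fun b hb => ?_⟩
      rw [mem_sdiff, mem_union, not_or] at hb
      refine ⟨⟨hF b hb.1, hJ2 b hb.1⟩, ?_⟩
      have hbG := hb.2.2
      rw [hG, mem_filter, not_and] at hbG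
      exact (not_le.1 (hbG (mem_univ _))).le
  have hTrc : Tr.card ≤ 8 ^ n := by
    refine (card_filter_le _ _).trans (le_of_eq ?_)
    rw [card_product, card_product, card_univ, Fintype.card_finset, ← hn, ← pow_add, ← pow_add,
      show (8 : ℕ) = 2 ^ 3 by norm_num, ← pow_mul]
    congr 1
    ring
  have h1 : bad.card * (8 * q) ^ n ≤ 8 ^ n * (Fintype.piFinset W).card := by
    calc bad.card * (8 * q) ^ n ≤ (∑ s ∈ Tr, (Bd s).card) * (8 * q) ^ n :=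
          Nat.mul_le_mul_right _ ((card_le_card hsub).trans card_biUnion_le)
      _ = ∑ s ∈ Tr, (Bd s).card * (8 * q) ^ n := by rw [sum_mul]
      _ ≤ ∑ s ∈ Tr, (Fintype.piFinset W).card := by
          refine sum_le_sum fun s hs => ?_
          rw [hTr, mem_filter] at hs
          exact one_triple W F ρ η hρ N q n hN hq hW Ψ hΨ s.1 s.2.1 s.2.2 hs.2.1 hs.2.2.1 hs.2.2.2
      _ = Tr.card * (Fintype.piFinset W).card := by rw [sum_const, smul_eq_mul]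
      _ ≤ _ := Nat.mul_le_mul_right _ hTrc
  rw [mul_pow, ← mul_assoc, mul_comm bad.card, mul_assoc] at h1
  exact le_of_mul_le_mul_left h1 (by positivity)

end Pool.Agent.K3h23.NZ
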