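import Mathlib
import Pool.Agent.K3h23.NZ.Union
import Pool.Agent.R849.SV.Arb

/-!
# Random choices: iterated products
-/

set_option autoImplicit false

namespace Pool.Agent.K3h23.NZ

open Finset Pool.Agent.Y359.PE Pool.Agent.R849.RF
open scoped Classical

/-- the values on `B` -/
noncomputable def VB {ι : Type} (g : ℤ → ℤ) (y : ι → ℤ) (B : Finset ι) : Finset ℤ :=
  B.image fun b => g (y b)

/-- the products of `j` values -/
noncomputable def Ps {ι : Type} (g : ℤ → ℤ) (j : ℕ) (B : Finset ι) (y : ι → ℤ) : Finset ℂ :=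
  ci (pk j (VB g y B))

lemma Ps_congr {ι : Type} (g : ℤ → ℤ) (j : ℕ) (B : Finset ι) (y y' : ι → ℤ)
    (h : ∀ b ∈ B, y b = y' b) : Ps g j B y = Ps g j B y' := by
  unfold Ps VB
  congr 2
  refine image_congr fun b hb => ?_
  show g (y b) = g (y' b)
  rw [h b hb]

lemma card_Ps {ι : Type} (g : ℤ → ℤ) (j : ℕ) (B : Finset ι) (y : ι → ℤ) :
    (Ps g j B y).card = (pk j (VB g y B)).card :=
  card_image_of_injective _ Int.cast_injective

lemma zero_notMem_pk (j : ℕ) (S : Finset ℤ) (h : (0 : ℤ) ∉ S) : (0 : ℤ) ∉ pk j S := by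
  intro h0
  obtain ⟨f, hf, hf0⟩ := mem_image.1 h0
  rw [Fintype.mem_piFinset] at hf
  obtain ⟨i, -, hi⟩ := prod_eq_zero_iff.1 hf0
  exact h (hi ▸ hf i)

lemma zero_notMem_Ps {ι : Type} (g : ℤ → ℤ) (j : ℕ) (B : Finset ι) (y : ι → ℤ)
    (h : ∀ b ∈ B, g (y b) ≠ 0) : (0 : ℂ) ∉ Ps g j B y := by
  refine ci_zero (zero_notMem_pk j _ ?_)
  intro h0
  obtain ⟨b, hb, hb0⟩ := mem_image.1 h0
  exact h b hb hb0

lemma card_pk_pow (j : ℕ) (S : Finset ℤ) : (pk j S).card ≤ S.card ^ j := by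
  unfold pk
  refine card_image_le.trans ?_
  rw [Fintype.card_piFinset, prod_const, card_univ, Fintype.card_fin]

lemma PX_sub {ι : Type} [DecidableEq ι] (g : ℤ → ℤ) (j : ℕ) (B₁ B₂ : Finset ι) (y : ι → ℤ) :
    PX (Ps g j B₁ y) B₂ (fun b => ((g (y b) : ℤ) : ℂ)) ⊆ ci (pk (j + 1) (VB g y (B₁ ∪ B₂))) := by
  intro z hz
  obtain ⟨x, hx, b, hb, rfl⟩ := mem_PX.1 hz
  obtain ⟨v, hv, rfl⟩ := mem_image.1 hx
  obtain ⟨f, hf, rfl⟩ := mem_image.1 hv
  rw [Fintype.mem_piFinset] at hf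
  refine mem_image.2 ⟨(∏ i, f i) * g (y b), mem_image.2 ⟨Fin.snoc (α := fun _ => ℤ) f (g (y b)),
    Fintype.mem_piFinset.2 ?_, ?_⟩, by push_cast; rfl⟩
  · intro i
    refine Fin.lastCases ?_ (fun i => ?_) i
    · rw [Fin.snoc_last]
      exact mem_image.2 ⟨b, mem_union_right _ hb, rfl⟩
    · rw [Fin.snoc_castSucc]
      obtain ⟨b', hb', h⟩ := mem_image.1 (hf i)
      exact mem_image.2 ⟨b', mem_union_left _ hb', h⟩
  · rw [Fin.prod_univ_castSucc]
    simp only [Fin.snoc_castSucc, Fin.snoc_last]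

lemma VB_mono {ι : Type} (g : ℤ → ℤ) (y : ι → ℤ) {B B' : Finset ι} (h : B ⊆ B') :
    VB g y B ⊆ VB g y B' := image_subset_image h

/-- the iteration, deterministic part -/
lemma iter {ι : Type} [DecidableEq ι] (g : ℤ → ℤ) (y : ι → ℤ) (n k m : ℕ) (θ : ℝ) (hθ : 0 ≤ θ) (hm : 1 ≤ m)
    (hn : 1 ≤ n) (hcard : ∀ B : Finset ι, B.card ≤ n)
    (hstep : ∀ j < k, ∀ B₁ B₂ : Finset ι, Disjoint B₁ B₂ → m ≤ B₂.card →
      (∀ b ∈ B₂, g (y b) ≠ 0) → (Ps g j B₁ y).Nonempty → (0 : ℂ) ∉ Ps g j B₁ y →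
      (Ps g j B₁ y).card ≤ n ^ k →
      ((Ps g j B₁ y).card : ℝ) * θ ≤ (PX (Ps g j B₁ y) B₂ fun b => ((g (y b) : ℤ) : ℂ)).card) :
    ∀ j ≤ k, ∀ B : Finset ι, j * m ≤ B.card → (∀ b ∈ B, g (y b) ≠ 0) →
      θ ^ j ≤ (pk j (VB g y B)).card := by
  intro j
  induction j with
  | zero =>
    intro _ B _ _
    rw [pow_zero]
    have : 0 < (pk 0 (VB g y B)).card := by
      unfold pk
      rw [card_pos, image_nonempty]
      exact ⟨fun i => i.elim0, Fintype.mem_piFinset.2 fun i => i.elim0⟩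
    exact_mod_cast this
  | succ j ih =>
    intro hj B hB hnz
    rw [add_mul, one_mul] at hB
    obtain ⟨B₂, hB₂, hB₂c⟩ := exists_subset_card_eq (show m ≤ B.card by omega)
    have hB₁ : j * m ≤ (B \ B₂).card := by
      rw [card_sdiff_of_subset hB₂]
      omega
    have h1 := ih (by omega) (B \ B₂) hB₁ (fun b hb => hnz b (mem_sdiff.1 hb).1)
    have hne : (Ps g j (B \ B₂) y).Nonempty := by
      rcases Nat.eq_zero_or_pos j with rfl | hj0
      · unfold Ps ci pk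
        rw [image_nonempty, image_nonempty]
        exact ⟨fun i => i.elim0, Fintype.mem_piFinset.2 fun i => i.elim0⟩
      · have : 0 < (B \ B₂).card := lt_of_lt_of_le (Nat.mul_pos hj0 hm) hB₁
        obtain ⟨b, hb⟩ := card_pos.1 this
        unfold Ps ci
        rw [image_nonempty]
        exact pk_nonempty ⟨_, mem_image_of_mem _ hb⟩
    have h2 := hstep j (by omega) (B \ B₂) B₂ sdiff_disjoint hB₂c.ge
      (fun b hb => hnz b (hB₂ hb)) hne
      (zero_notMem_Ps g j _ y fun b hb => hnz b (mem_sdiff.1 hb).1) (by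
        rw [card_Ps]
        refine (card_pk_pow j _).trans ?_
        refine (Nat.pow_le_pow_left (card_image_le.trans (hcard _)) j).trans ?_
        exact Nat.pow_le_pow_right hn (by omega))
    have h3 := card_le_card (PX_sub g j (B \ B₂) B₂ y)
    rw [sdiff_union_of_subset hB₂] at h3
    have h4 : (ci (pk (j + 1) (VB g y B))).card = (pk (j + 1) (VB g y B)).card :=
      card_image_of_injective _ Int.cast_injective
    rw [h4] at h3
    rw [card_Ps] at h2
    calc θ ^ (j + 1) = θ ^ j * θ := pow_succ _ _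
      _ ≤ (pk j (VB g y (B \ B₂))).card * θ := mul_le_mul_of_nonneg_right h1 hθ
      _ ≤ _ := h2
      _ ≤ _ := by exact_mod_cast h3

/-- **The main theorem, abstract form.** -/
theorem mainA (ε ρ c : ℝ) (hε : 0 < ε) (hε1 : ε ≤ 1) (hρ : 0 < ρ) (hc : 0 < c)
    (k N R q z : ℕ) (hk : 1 ≤ k) (hN : 1 ≤ N) (hq : 1 ≤ q) : ∃ n₀ : ℕ,
      ∀ {ι : Type} [Fintype ι] [DecidableEq ι] (W : ι → Finset ℤ) (g : ℤ → ℤ) (n : ℕ),
      n = Fintype.card ι →
      n₀ ≤ n → (∀ i, alt N (ρ / (2 * k)) (k * q) ≤ (W i).card) →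
      (∀ v, ((univ : Finset ι).filter fun i => v ∈ W i).card ≤ R) →
      Rich N c (ε / k / (4 * (k + 1))) W (fun v => ((g v : ℤ) : ℂ)) →
      (∀ y ∈ Fintype.piFinset W, ((univ : Finset ι).filter fun i => g (y i) = 0).card ≤ z) →
      ((Fintype.piFinset W).filter fun y => ¬ ∀ B : Finset ι, ρ * n ≤ B.card → ∀ j ≤ k,
        (n : ℝ) ^ ((j : ℝ) - ε) ≤ (pk j (VB g y B)).card).card * q ^ n ≤
      (Fintype.piFinset W).card := by
  have hkr : (1 : ℝ) ≤ k := by exact_mod_cast hk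
  have hk0 : (0 : ℝ) < k := by linarith
  have hε2 : ε / k ≤ 1 := by
    rw [div_le_one hk0]
    linarith
  obtain ⟨n₁, hn₁⟩ := step (ε / k) (ρ / (2 * k)) c (by positivity) hε2 (by positivity) hc k N R
    (k * q) hN (Nat.mul_pos hk hq)
  refine ⟨max (max n₁ ⌈2 * (k + z) / ρ⌉₊) 1, ?_⟩
  intro ι _ _ W g n hn hnn hW hR hrich hz
  have hn1 : 1 ≤ n := (le_max_right _ _).trans hnn
  have hnr : (1 : ℝ) ≤ n := by exact_mod_cast hn1
  have hn0 : (0 : ℝ) < n := by linarith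
  have hstep := hn₁ W (fun v => ((g v : ℤ) : ℂ)) n hn
    ((le_max_left _ _).trans ((le_max_left _ _).trans hnn)) hW hR hrich
  have hnz : 2 * (k + z) / ρ ≤ (n : ℝ) :=
    (Nat.le_ceil _).trans (by
      exact_mod_cast (le_max_right n₁ _).trans ((le_max_left _ _).trans hnn))
  rw [div_le_iff₀ hρ] at hnz
  set E : ℕ → Finset (ι → ℤ) := fun j =>
    (Fintype.piFinset W).filter fun y => ∃ B₁ B₂ : Finset ι, Disjoint B₁ B₂ ∧
        ρ / (2 * k) * n ≤ B₂.card ∧ (∀ b ∈ B₂, ((g (y b) : ℤ) : ℂ) ≠ 0) ∧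
        (Ps g j B₁ y).Nonempty ∧ (0 : ℂ) ∉ Ps g j B₁ y ∧
        (Ps g j B₁ y).card ≤ n ^ k ∧
        ((PX (Ps g j B₁ y) B₂ fun b => ((g (y b) : ℤ) : ℂ)).card : ℝ) <
          (Ps g j B₁ y).card * (n : ℝ) ^ (1 - ε / k) with hE
  have hEc : ∀ j, (E j).card * (k * q) ^ n ≤ (Fintype.piFinset W).card := fun j =>
    hstep (Ps g j) (Ps_congr g j)
  have hsub : ((Fintype.piFinset W).filter fun y => ¬ ∀ B : Finset ι, ρ * n ≤ B.card → ∀ j ≤ k,
        (n : ℝ) ^ ((j : ℝ) - ε) ≤ (pk j (VB g y B)).card) ⊆ (range k).biUnion E := by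
    intro y hy
    rw [mem_filter] at hy
    by_contra hcon
    refine hy.2 fun B hB j hj => ?_
    rw [mem_biUnion] at hcon
    push Not at hcon
    set Bs := B.filter fun b => g (y b) ≠ 0 with hBs
    set m := ⌈ρ / (2 * k) * n⌉₊ with hm
    have hm1 : 1 ≤ m := Nat.one_le_ceil_iff.2 (by positivity)
    have hmn : (m : ℝ) < ρ / (2 * k) * n + 1 := Nat.ceil_lt_add_one (by positivity)
    have hBc : B.card ≤ Bs.card + z := by
      have h1 : Bs.card + (B.filter fun b => ¬ g (y b) ≠ 0).card = B.card :=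
        card_filter_add_card_filter_not (s := B) (fun b => g (y b) ≠ 0)
      have h2 : (B.filter fun b => ¬ g (y b) ≠ 0).card ≤ z := by
        refine le_trans (card_le_card ?_) (hz y hy.1)
        intro b hb
        rw [mem_filter] at hb ⊢
        exact ⟨mem_univ _, not_not.1 hb.2⟩
      omega
    have hBsc : j * m ≤ Bs.card := by
      have h1 : (B.card : ℝ) ≤ Bs.card + z := by exact_mod_cast hBc
      have h2 : (k : ℝ) * m ≤ ρ / 2 * n + k := by
        have h3 : (k : ℝ) * (ρ / (2 * k) * n + 1) = ρ / 2 * n + k := by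
          field_simp
        nlinarith
      have h4 : (k : ℝ) * m ≤ Bs.card := by nlinarith
      have h5 : k * m ≤ Bs.card := by exact_mod_cast h4
      exact (Nat.mul_le_mul_right m hj).trans h5
    have hmain := iter g y n k m ((n : ℝ) ^ (1 - ε / k)) (by positivity) hm1 hn1
      (fun B => by rw [hn]; exact card_le_univ B) (by
        intro j hj B₁ B₂ hd hB₂ hnz0 hne h0 hck
        by_contra hlt
        push Not at hlt
        refine hcon j (mem_range.2 hj) ?_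
        rw [hE, mem_filter]
        refine ⟨hy.1, B₁, B₂, hd, ?_, ?_, hne, h0, hck, hlt⟩
        · exact (Nat.le_ceil _).trans (Nat.cast_le.2 hB₂)
        · intro b hb h
          exact hnz0 b hb (by exact_mod_cast h)) j hj Bs hBsc (fun b hb => (mem_filter.1 hb).2)
    have h1 : (n : ℝ) ^ ((j : ℝ) - ε) ≤ ((n : ℝ) ^ (1 - ε / k)) ^ j := by
      rw [← Real.rpow_natCast, ← Real.rpow_mul hn0.le]
      refine Real.rpow_le_rpow_of_exponent_le hnr ?_
      have h2 : ε / k * j ≤ ε := by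
        rw [div_mul_eq_mul_div, div_le_iff₀ hk0]
        have : (j : ℝ) ≤ k := by exact_mod_cast hj
        nlinarith
      linarith
    refine h1.trans (hmain.trans ?_)
    exact_mod_cast card_le_card (pk_mono (VB_mono g y (filter_subset _ _)))
  have h1 : ((Fintype.piFinset W).filter fun y => ¬ ∀ B : Finset ι, ρ * n ≤ B.card → ∀ j ≤ k,
        (n : ℝ) ^ ((j : ℝ) - ε) ≤ (pk j (VB g y B)).card).card * (k * q) ^ n ≤
        k * (Fintype.piFinset W).card := by
    refine (Nat.mul_le_mul_right _ ((card_le_card hsub).trans card_biUnion_le)).trans ?_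
    rw [sum_mul]
    refine (sum_le_sum fun j _ => hEc j).trans ?_
    rw [sum_const, card_range, smul_eq_mul]
  set b := ((Fintype.piFinset W).filter fun y => ¬ ∀ B : Finset ι, ρ * n ≤ B.card → ∀ j ≤ k,
        (n : ℝ) ^ ((j : ℝ) - ε) ≤ (pk j (VB g y B)).card).card
  have h2 : k * (b * q ^ n) ≤ k * (Fintype.piFinset W).card := by
    refine le_trans ?_ h1
    rw [mul_pow]
    have h3 : k ≤ k ^ n := Nat.le_self_pow (by omega) k
    calc k * (b * q ^ n) ≤ k ^ n * (b * q ^ n) := Nat.mul_le_mul_right _ h3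
      _ = _ := by ring
  exact le_of_mul_le_mul_left h2 hk

end Pool.Agent.K3h23.NZ
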