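import Mathlib
import Pool.Agent.K3h23.NZ.Iter

/-!
# Random choices: the two kinds of alternatives, and arbitrary factors
-/

set_option autoImplicit false

namespace Pool.Agent.K3h23.NZ

open Finset Pool.Agent.Y359.PE Pool.Agent.R849.RF Pool.Agent.R849.SV
open scoped Classical

/-- A family of `n` integers without multiplicative structure: every subfamily with at least `ρ n`
members has at least `n ^ (j - ε)` products of `j` members, for all `j ≤ k`, and at least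
`(|X| n) ^ (1 - ε)` products with the elements of every finite set `X` of nonzero complex
numbers. -/
def Unstructured (ε ρ : ℝ) (k : ℕ) {ι : Type} [Fintype ι] (u : ι → ℤ) : Prop :=
  ∀ B : Finset ι, ρ * Fintype.card ι ≤ B.card →
    (∀ j ≤ k, (Fintype.card ι : ℝ) ^ ((j : ℝ) - ε) ≤
      ((Fintype.piFinset fun _ : Fin j => B).image fun b => ∏ i, u (b i)).card) ∧
    ∀ X : Finset ℂ, X.Nonempty → (0 : ℂ) ∉ X →
      ((X.card : ℝ) * Fintype.card ι) ^ (1 - ε) ≤
        ((X ×ˢ B).image fun s => s.1 * (u s.2 : ℂ)).card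

lemma pk_VB {ι : Type} (g : ℤ → ℤ) (y : ι → ℤ) (B : Finset ι) (j : ℕ) :
    pk j (VB g y B) ⊆ (Fintype.piFinset fun _ : Fin j => B).image fun b => ∏ i, g (y (b i)) := by
  intro z hz
  obtain ⟨f, hf, rfl⟩ := mem_image.1 hz
  rw [Fintype.mem_piFinset] at hf
  have hch : ∀ i, ∃ b ∈ B, g (y b) = f i := fun i => mem_image.1 (hf i)
  choose b hb1 hb2 using hch
  exact mem_image.2 ⟨b, Fintype.mem_piFinset.2 hb1, prod_congr rfl fun i _ => hb2 i⟩

lemma two_thr (ε : ℝ) (hε : 0 < ε) : ∃ n₀ : ℕ, ∀ n : ℕ, n₀ ≤ n → 2 ≤ (n : ℝ) ^ (ε / 2) := by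
  have h1 : Filter.Tendsto (fun n : ℕ => (n : ℝ) ^ (ε / 2)) Filter.atTop Filter.atTop :=
    (tendsto_rpow_atTop (show 0 < ε / 2 by positivity)).comp tendsto_natCast_atTop_atTop
  obtain ⟨n₀, h⟩ := Filter.eventually_atTop.1 (h1.eventually (Filter.eventually_ge_atTop 2))
  exact ⟨n₀, fun n hn => h n hn⟩

/-- the number of alternatives -/
noncomputable def KK (ε : ℝ) (k : ℕ) : ℕ := max k ⌈1 / ε⌉₊

/-- the exponent -/
noncomputable def ee (ε : ℝ) (k : ℕ) : ℝ := ε / 2 / (KK ε k : ℝ) / (4 * ((KK ε k : ℝ) + 1))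

lemma KK_pos (ε : ℝ) (k : ℕ) (hε : 0 < ε) : 1 ≤ KK ε k :=
  (ceil_ok hε).trans (le_max_right _ _)

lemma ee_pos (ε : ℝ) (k : ℕ) (hε : 0 < ε) : 0 < ee ε k := by
  have : (1 : ℝ) ≤ KK ε k := by exact_mod_cast KK_pos ε k hε
  unfold ee
  positivity

lemma ee_le (ε : ℝ) (k : ℕ) (hε : 0 < ε) (hε1 : ε ≤ 1) : ee ε k ≤ 1 := by
  have h : (1 : ℝ) ≤ KK ε k := by exact_mod_cast KK_pos ε k hε
  unfold ee
  rw [div_div, div_le_one (by positivity)]
  nlinarith

/-- **The main theorem with arbitrary factors.** -/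
theorem mainB (ε ρ c : ℝ) (hε : 0 < ε) (hε1 : ε ≤ 1) (hρ : 0 < ρ) (hc : 0 < c)
    (k N R q z : ℕ) (hN : 1 ≤ N) (hq : 1 ≤ q) : ∃ n₀ : ℕ,
      ∀ {ι : Type} [Fintype ι] [DecidableEq ι] (W : ι → Finset ℤ) (g : ℤ → ℤ),
      n₀ ≤ Fintype.card ι →
      (∀ i, alt N (ρ / (2 * KK ε k)) (KK ε k * q) ≤ (W i).card) →
      (∀ v, ((univ : Finset ι).filter fun i => v ∈ W i).card ≤ R) →
      Rich N c (ee ε k) W (fun v => ((g v : ℤ) : ℂ)) →
      (∀ y ∈ Fintype.piFinset W, ((univ : Finset ι).filter fun i => g (y i) = 0).card ≤ z) →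
      ((Fintype.piFinset W).filter fun y => ¬ Unstructured ε ρ k fun i => g (y i)).card *
        q ^ Fintype.card ι ≤ (Fintype.piFinset W).card := by
  obtain ⟨n₁, hn₁⟩ := mainA (ε / 2) ρ c (by positivity) (by linarith) hρ hc (KK ε k) N R q z
    (KK_pos ε k hε) hN hq
  obtain ⟨n₂, hn₂⟩ := two_thr ε hε
  refine ⟨max (max n₁ n₂) (max 1 ⌈(z + 1) / ρ⌉₊), ?_⟩
  intro ι _ _ W g hnn hW hR hrich hz
  have h1 := hn₁ W g (Fintype.card ι) rfl ((le_max_left _ _).trans ((le_max_left _ _).trans hnn))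
    hW hR hrich hz
  have h2 := hn₂ (Fintype.card ι) ((le_max_right _ _).trans ((le_max_left _ _).trans hnn))
  set n := Fintype.card ι with hn
  have hn1 : 1 ≤ n := (le_max_left _ _).trans ((le_max_right _ _).trans hnn)
  have hzn : (z + 1) / ρ ≤ (n : ℝ) := (Nat.le_ceil _).trans
    (by exact_mod_cast (le_max_right _ _).trans ((le_max_right _ _).trans hnn))
  rw [div_le_iff₀ hρ] at hzn
  have hnr : (1 : ℝ) ≤ n := by exact_mod_cast hn1
  have hn0 : (0 : ℝ) < n := by linarith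
  refine le_trans (Nat.mul_le_mul_right _ (card_le_card ?_)) h1
  intro y hy
  rw [mem_filter] at hy ⊢
  refine ⟨hy.1, fun hgood => hy.2 fun B hB => ⟨fun j hj => ?_, fun X hX h0 => ?_⟩⟩
  · have h3 := hgood B hB j (hj.trans (le_max_left _ _))
    refine le_trans (Real.rpow_le_rpow_of_exponent_le hnr (by linarith)) (h3.trans ?_)
    exact_mod_cast card_le_card (pk_VB g y B j)
  · have h3 := hgood B hB (KK ε k) le_rfl
    have hnz : ∃ b ∈ VB g y B, b ≠ 0 := by
      by_contra hcon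
      push Not at hcon
      have h4 : B ⊆ (univ : Finset ι).filter fun i => g (y i) = 0 := fun b hb =>
        mem_filter.2 ⟨mem_univ _, hcon _ (mem_image_of_mem _ hb)⟩
      have h5 : (B.card : ℝ) ≤ z := by exact_mod_cast (card_le_card h4).trans (hz y hy.1)
      linarith
    have h4 : (2 : ℝ) * (n : ℝ) ^ ((KK ε k : ℝ) - ε) ≤ (pk (KK ε k) (VB g y B)).card := by
      refine le_trans ?_ h3
      have e : (n : ℝ) ^ ((KK ε k : ℝ) - ε / 2) =
          (n : ℝ) ^ (ε / 2) * (n : ℝ) ^ ((KK ε k : ℝ) - ε) := by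
        rw [← Real.rpow_add hn0]
        congr 1
        ring
      rw [e]
      exact mul_le_mul_of_nonneg_right h2 (by positivity)
    have h5 := arbM hε hε1 (show (0 : ℝ) < 2 by norm_num) hnr (KK ε k)
      ((Nat.le_ceil _).trans (by exact_mod_cast le_max_right k ⌈1 / ε⌉₊)) (VB g y B) hnz h4 X hX h0
    rw [div_self (by norm_num), Real.one_rpow, one_mul] at h5
    refine h5.trans ?_
    have h6 : AB X (VB g y B) ⊆ (X ×ˢ B).image fun s => s.1 * ((g (y s.2) : ℤ) : ℂ) := by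
      intro v hv
      obtain ⟨s, hs, rfl⟩ := mem_image.1 hv
      rw [mem_product] at hs
      obtain ⟨b, hb, hb2⟩ := mem_image.1 hs.2
      refine mem_image.2 ⟨(s.1, b), mem_product.2 ⟨hs.1, hb⟩, ?_⟩
      show s.1 * ((g (y b) : ℤ) : ℂ) = s.1 * (s.2 : ℂ)
      rw [hb2]
    exact_mod_cast card_le_card h6

/-- clusters in short intervals -/
lemma rich_interval (ε : ℝ) (hε : 0 < ε) (hε1 : ε ≤ 1) (d : ℕ) :
    ∃ N : ℕ, 1 ≤ N ∧ ∀ w : ℕ, ∃ c : ℝ, 0 < c ∧ ∀ {ι : Type} (W : ι → Finset ℤ)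
      (f : Polynomial ℤ), 1 ≤ f.natDegree → f.natDegree ≤ d →
      (∀ i, ∀ x ∈ W i, ∀ x' ∈ W i, |x - x'| ≤ (w : ℤ)) →
      Rich N c ε W (fun v => ((f.eval v : ℤ) : ℂ)) := by
  obtain ⟨N, h⟩ := clustA ε hε hε1 d
  refine ⟨max N 1, le_max_right _ _, fun w => ?_⟩
  obtain ⟨c, hc, h⟩ := h w
  refine ⟨c, hc, fun {ι} W f hf hfd hW S hS hS2 X hX h0 => ?_⟩
  have h1 := h f hf hfd S hS (fun x hx => ?_) X hX h0
  · refine h1.trans ?_
    have h6 : AB X (vals f S) ⊆ PX X S fun v => ((f.eval v : ℤ) : ℂ) := by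
      intro v hv
      obtain ⟨s, hs, rfl⟩ := mem_image.1 hv
      rw [mem_product] at hs
      obtain ⟨b, hb, hb2⟩ := mem_image.1 (mem_of_mem_erase hs.2)
      refine mem_PX.2 ⟨s.1, hs.1, b, hb, ?_⟩
      show s.1 * ((f.eval b : ℤ) : ℂ) = s.1 * (s.2 : ℂ)
      rw [← hb2]
    exact_mod_cast card_le_card h6
  · obtain ⟨_, i, hi, hN⟩ := hS2 x hx
    refine (le_max_left _ _).trans (hN.trans (card_le_card ?_))
    intro y hy
    rw [mem_inter] at hy
    exact mem_filter.2 ⟨hy.1, hW i y hy.2 x hi⟩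

/-- clusters of almost coprime integers -/
lemma rich_coprime (ε : ℝ) (hε : 0 < ε) (hε1 : ε ≤ 1) (R : ℕ) :
    ∃ N : ℕ, 1 ≤ N ∧ ∀ m : ℕ, ∃ c : ℝ, 0 < c ∧ ∀ {ι : Type} [Fintype ι] (W : ι → Finset ℤ),
      (∀ v, ((univ : Finset ι).filter fun i => v ∈ W i).card ≤ R) →
      (∀ i, ∀ x ∈ W i, ∀ x' ∈ W i, x ≠ x' → Int.gcd x x' ≤ m) →
      Rich N c ε W (fun v => ((v : ℤ) : ℂ)) := by
  obtain ⟨δ, hδ, h⟩ := spreadA ε hε hε1
  refine ⟨max ⌈R / δ⌉₊ 1, le_max_right _ _, fun m => ?_⟩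
  obtain ⟨c, hc, h⟩ := h (m + 1)
  refine ⟨c, hc, fun {ι} _ W hR hW S hS hS2 X hX h0 => ?_⟩
  set N := max ⌈R / δ⌉₊ 1 with hN
  have hNR : (R : ℝ) ≤ δ * N := by
    have h1 : R / δ ≤ (N : ℝ) := (Nat.le_ceil _).trans (by exact_mod_cast le_max_left _ _)
    rw [div_le_iff₀ hδ] at h1
    linarith
  have hS0 : (0 : ℤ) ∉ S := by
    intro h0
    exact (hS2 0 h0).1 (by simp)
  have h1 := h S hS hS0 ∅ (fun _ => 0) (fun p hp _ => ?_) X hX h0
  · have hparts : (parts ∅ S).card = 1 :=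
      le_antisymm (parts_empty S) (card_pos.2 (parts_nonempty ∅ hS))
    rw [hparts, Nat.cast_one, div_one] at h1
    refine h1.trans (le_of_eq ?_)
    congr 2
  · -- at most one element of each cluster is divisible by a large power of `p`
    set Q := S.filter fun b => m + 1 ≤ p ^ ((fa b p : ℤ) - ((0 : ℕ) : ℤ)).natAbs with hQ
    have hone : ∀ i, ∀ b ∈ Q, ∀ b' ∈ Q, b ∈ W i → b' ∈ W i → b = b' := by
      intro i b hb b' hb' hbi hbi'
      by_contra hne
      have h2 := hW i b hbi b' hbi' hne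
      rw [hQ, mem_filter] at hb hb'
      have e1 : ∀ a : ℤ, ((fa a p : ℤ) - ((0 : ℕ) : ℤ)).natAbs = fa a p := by
        intro a
        simp
      rw [e1] at hb hb'
      have hdvd : ∀ a : ℤ, p ^ fa a p ∣ a.natAbs := fun a => Nat.ordProj_dvd a.natAbs p
      set t := min (fa b p) (fa b' p) with ht
      have h3 : p ^ t ∣ Int.gcd b b' := by
        refine Nat.dvd_gcd ?_ ?_
        · exact (pow_dvd_pow p (min_le_left _ _)).trans (hdvd b)
        · exact (pow_dvd_pow p (min_le_right _ _)).trans (hdvd b')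
      have hb0 : b ≠ 0 := fun h => hS0 (h ▸ hb.1)
      have h4 := Nat.le_of_dvd (Int.gcd_pos_of_ne_zero_left b' hb0) h3
      have h5 : m + 1 ≤ p ^ t := by
        rcases min_choice (fa b p) (fa b' p) with h | h
        · rw [ht, h]; exact hb.2
        · rw [ht, h]; exact hb'.2
      omega
    have hch : ∀ b ∈ Q, ∃ i, b ∈ W i ∧ N ≤ (S ∩ W i).card := fun b hb =>
      (hS2 b (mem_filter.1 hb).1).2
    haveI : Nonempty ι := by
      obtain ⟨v, hv⟩ := hS
      obtain ⟨-, i, -⟩ := hS2 v hv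
      exact ⟨i⟩
    choose! i hi1 hi2 using hch
    have h2 : Q.card * N ≤ R * S.card := by
      calc Q.card * N = ∑ b ∈ Q, N := by rw [sum_const, smul_eq_mul]
        _ ≤ ∑ b ∈ Q, (S ∩ W (i b)).card := sum_le_sum hi2
        _ = ∑ b ∈ Q, ∑ v ∈ S, if v ∈ W (i b) then 1 else 0 := by
            refine sum_congr rfl fun b _ => ?_
            rw [← card_filter, filter_mem_eq_inter]
        _ = ∑ v ∈ S, ∑ b ∈ Q, if v ∈ W (i b) then 1 else 0 := sum_comm
        _ ≤ ∑ v ∈ S, R := by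
            refine sum_le_sum fun v _ => ?_
            rw [← card_filter]
            refine le_trans ?_ (hR v)
            refine card_le_card_of_injOn i (fun b hb => ?_) ?_
            · rw [mem_coe, mem_filter] at hb
              rw [mem_coe, mem_filter]
              exact ⟨mem_univ _, hb.2⟩
            · intro b hb b' hb' hbb
              rw [mem_coe, mem_filter] at hb hb'
              exact hone (i b) b hb.1 b' hb'.1 (hi1 b hb.1) (hbb ▸ hi1 b' hb'.1)
        _ = R * S.card := by rw [sum_const, smul_eq_mul, mul_comm]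
    have h3 : (Q.card : ℝ) * N ≤ R * S.card := by exact_mod_cast h2
    have hNp : (0 : ℝ) < N := by
      have : 1 ≤ N := le_max_right _ _
      exact_mod_cast this
    have h4 : (Q.card : ℝ) * N ≤ (δ * S.card) * N := by
      calc (Q.card : ℝ) * N ≤ R * S.card := h3
        _ ≤ (δ * N) * S.card := by gcongr
        _ = _ := by ring
    exact le_of_mul_le_mul_right h4 hNp

/-- **Random choices between almost coprime alternatives.** -/
theorem coprimeT (ε ρ : ℝ) (hε : 0 < ε) (hε1 : ε ≤ 1) (hρ : 0 < ρ) (k R q : ℕ) (hq : 1 ≤ q) :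
    ∃ H : ℕ, ∀ m : ℕ, ∃ n₀ : ℕ, ∀ {ι : Type} [Fintype ι] [DecidableEq ι] (W : ι → Finset ℤ),
      n₀ ≤ Fintype.card ι → (∀ i, H ≤ (W i).card) →
      (∀ v, ((univ : Finset ι).filter fun i => v ∈ W i).card ≤ R) →
      (∀ i, ∀ x ∈ W i, ∀ x' ∈ W i, x ≠ x' → Int.gcd x x' ≤ m) →
      ((Fintype.piFinset W).filter fun y => ¬ Unstructured ε ρ k y).card *
        q ^ Fintype.card ι ≤ (Fintype.piFinset W).card := by
  obtain ⟨N, hN, h⟩ := rich_coprime (ee ε k) (ee_pos ε k hε) (ee_le ε k hε hε1) R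
  refine ⟨alt N (ρ / (2 * KK ε k)) (KK ε k * q), fun m => ?_⟩
  obtain ⟨c, hc, h⟩ := h m
  obtain ⟨n₀, hn₀⟩ := mainB ε ρ c hε hε1 hρ hc k N R q R hN hq
  refine ⟨n₀, fun {ι} _ _ W hn hW hR hg => ?_⟩
  refine hn₀ W (fun v => v) hn hW hR (h W hR hg) fun y hy => ?_
  refine le_trans (card_le_card ?_) (hR 0)
  intro i hi
  rw [mem_filter] at hi ⊢
  refine ⟨mem_univ _, ?_⟩
  rw [← hi.2]
  exact Fintype.mem_piFinset.1 hy i

/-- **Bounded noise.** -/
theorem noiseT (ε ρ : ℝ) (hε : 0 < ε) (hε1 : ε ≤ 1) (hρ : 0 < ρ) (k d q : ℕ) (hq : 1 ≤ q) :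
    ∃ H : ℕ, ∀ w : ℕ, ∃ n₀ : ℕ, ∀ f : Polynomial ℤ, 1 ≤ f.natDegree → f.natDegree ≤ d →
      ∀ (A : Finset ℤ) (W : A → Finset ℤ), n₀ ≤ A.card →
      (∀ a, H ≤ (W a).card ∧ ∀ x ∈ W a, |x - a| ≤ (w : ℤ)) →
      ((Fintype.piFinset W).filter fun y => ¬ Unstructured ε ρ k fun a => f.eval (y a)).card *
        q ^ A.card ≤ (Fintype.piFinset W).card := by
  obtain ⟨N, hN, h⟩ := rich_interval (ee ε k) (ee_pos ε k hε) (ee_le ε k hε hε1) d
  refine ⟨alt N (ρ / (2 * KK ε k)) (KK ε k * q), fun w => ?_⟩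
  obtain ⟨c, hc, h⟩ := h (2 * w)
  obtain ⟨n₀, hn₀⟩ := mainB ε ρ c hε hε1 hρ hc k N (2 * w + 1) q (d * (2 * w + 1)) hN hq
  refine ⟨n₀, fun f hf hfd A W hn hW => ?_⟩
  have hover : ∀ v : ℤ, ((univ : Finset A).filter fun a => v ∈ W a).card ≤ 2 * w + 1 := by
    intro v
    have h1 : ((univ : Finset A).filter fun a => v ∈ W a).card ≤ (Icc (v - w) (v + w)).card := by
      refine card_le_card_of_injOn (fun a => (a : ℤ)) (fun a ha => ?_)
        (Subtype.val_injective.injOn)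
      rw [mem_coe, mem_filter] at ha
      rw [mem_coe, mem_Icc]
      have := abs_le.1 ((hW a).2 v ha.2)
      constructor <;> linarith [this.1, this.2]
    refine h1.trans (le_of_eq ?_)
    rw [Int.card_Icc]
    have : v + (w : ℤ) + 1 - (v - w) = ((2 * w + 1 : ℕ) : ℤ) := by
      push_cast
      ring
    rw [this, Int.toNat_natCast]
  have hc1 : Fintype.card A = A.card := Fintype.card_coe A
  rw [← hc1]
  refine hn₀ W (fun v => f.eval v) (by rw [hc1]; exact hn) (fun a => (hW a).1) hover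
    (h W f hf hfd fun a x hx x' hx' => ?_) fun y hy => ?_
  · have h1 := abs_le.1 ((hW a).2 x hx)
    have h2 := abs_le.1 ((hW a).2 x' hx')
    rw [abs_le]
    push_cast
    constructor <;> linarith [h1.1, h1.2, h2.1, h2.2]
  · have hf0 : f ≠ 0 := by
      rintro rfl
      simp at hf
    have h1 : ((univ : Finset A).filter fun i => f.eval (y i) = 0) ⊆
        f.roots.toFinset.biUnion fun r => (univ : Finset A).filter fun a => r ∈ W a := by
      intro a ha
      rw [mem_filter] at ha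
      refine mem_biUnion.2 ⟨y a, ?_, mem_filter.2 ⟨mem_univ _, Fintype.mem_piFinset.1 hy a⟩⟩
      rw [Multiset.mem_toFinset, Polynomial.mem_roots hf0]
      exact ha.2
    refine (card_le_card h1).trans (card_biUnion_le.trans ?_)
    refine (sum_le_sum fun r _ => hover r).trans ?_
    rw [sum_const, smul_eq_mul]
    refine Nat.mul_le_mul_right _ ?_
    exact (Multiset.toFinset_card_le _).trans ((Polynomial.card_roots' f).trans hfd)

end Pool.Agent.K3h23.NZ
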